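import Pool.Agent.H7.OPP.Stmts

/-!
# OPP, module DEN: approximation at a common level
-/

set_option autoImplicit false

open scoped Topology ComplexConjugate Uniformity

namespace Pool.OPP

noncomputable section

theorem DEN_mono (h : SLev) {k m : ℕ} {f : BB} (hf : Lev k f) (hkm : k ≤ m) : Lev m f := by
  induction m, hkm using Nat.le_induction with
  | base => exact hf
  | succ m _ ih => exact h.1 m f ih

theorem sDen (h : SLev) : SDen := by
  intro ι _ f hf ε hε k₀
  classical
  have : Fintype ι := Fintype.ofFinite ι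
  have h1 : ∀ i, ∃ (k : ℕ) (a : BB), Lev k a ∧ a ∈ AA ∧ ‖a - f i‖ < ε := by
    intro i
    have h2 : f i ∈ closure (A0 : Set BB) := by
      have := hf i
      rwa [← SetLike.mem_coe, StarSubalgebra.topologicalClosure_coe] at this
    obtain ⟨a, ha, hd⟩ := Metric.mem_closure_iff.mp h2 ε hε
    obtain ⟨k, hk⟩ := (h.2.2.2.2.2 a).mp ha
    refine ⟨k, a, hk, StarSubalgebra.le_topologicalClosure _ ha, ?_⟩
    rw [← dist_eq_norm, dist_comm]
    exact hd
  choose k a hk ha hd using h1
  refine ⟨max k₀ (Finset.univ.sup k), a, le_max_left _ _, fun i => ⟨?_, ha i, hd i⟩⟩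
  exact DEN_mono h (hk i) (le_trans (Finset.le_sup (Finset.mem_univ i)) (le_max_right _ _))

end

end Pool.OPP
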