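import Pool.Agent.H7.OPP.Stmts

/-!
# OPP, module ENT: matrix entries of the elements of level `k`
-/

set_option autoImplicit false

open scoped Topology ComplexConjugate Uniformity

namespace Pool.OPP

noncomputable section

/-! ### the indices -/

theorem ENT_mem {k : ℕ} {s : JI} : s ∈ JJ k ↔ ∀ i ∈ s.2, i < k := by
  unfold JJ
  rw [Finset.mem_product, Finset.mem_powerset, Finset.subset_iff]
  simp

theorem ENT_low_mem (k : ℕ) (u : JI) : low k u ∈ JJ k := by
  rw [ENT_mem]
  intro i hi
  exact (Finset.mem_filter.mp hi).2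

theorem ENT_split (k : ℕ) (u : JI) : jn (low k u) (high k u) = u := by
  unfold jn low high
  refine Prod.ext rfl ?_
  ext i
  simp only [Finset.mem_union, Finset.mem_filter]
  constructor
  · rintro (h | h) <;> exact h.1
  · intro h
    rcases lt_or_ge i k with h1 | h1
    · exact Or.inl ⟨h, h1⟩
    · exact Or.inr ⟨h, h1⟩

theorem ENT_low_jn {k : ℕ} {t : JI} (ht : t ∈ JJ k) (u : JI) : low k (jn t (high k u)) = t := by
  rw [ENT_mem] at ht
  unfold jn low high
  refine Prod.ext rfl ?_
  ext i
  simp only [Finset.mem_union, Finset.mem_filter]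
  constructor
  · rintro ⟨h | h, h1⟩
    · exact h
    · omega
  · intro h
    exact ⟨Or.inl h, ht i h⟩

theorem ENT_high_jn {k : ℕ} {t : JI} (ht : t ∈ JJ k) (u : JI) :
    high k (jn t (high k u)) = high k u := by
  rw [ENT_mem] at ht
  unfold jn high
  ext i
  simp only [Finset.mem_union, Finset.mem_filter]
  constructor
  · rintro ⟨h | h, h1⟩
    · have := ht i h
      omega
    · exact h
  · intro h
    exact ⟨Or.inr h, h.2⟩

theorem ENT_low_eq {k : ℕ} {s : JI} (hs : s ∈ JJ k) : low k s = s := by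
  rw [ENT_mem] at hs
  unfold low
  refine Prod.ext rfl ?_
  exact Finset.filter_true_of_mem hs

theorem ENT_high_eq {k : ℕ} {s : JI} : s ∈ JJ k ↔ high k s = ∅ := by
  rw [ENT_mem]
  unfold high
  rw [Finset.filter_eq_empty_iff]
  simp only [not_le]

/-! ### operators -/

theorem ENT_bv (s v : JI) : (bv s : JI → ℂ) v = if v = s then 1 else 0 := by
  unfold bv
  rw [lp.single_apply]
  by_cases h : v = s
  · subst h
    simp
  · rw [Pi.single_eq_of_ne h, if_neg h]

theorem ENT_ext {f g : BH} (h : ∀ s t, mc f s t = mc g s t) : f = g := by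
  have h1 : ∀ t, f (bv t) = g (bv t) := by
    intro t
    apply lp.ext
    funext s
    exact h s t
  ext1 ξ
  have h2 := lp.hasSum_single (p := 2) (by simp) ξ
  have h3 : ∀ t : JI, lp.single 2 t (ξ t) = (ξ t : ℂ) • bv t := by
    intro t
    unfold bv
    rw [← lp.single_smul, smul_eq_mul, mul_one]
  have h4 := f.hasSum h2
  have h5 := g.hasSum h2
  have h6 : ∀ t : JI, f (lp.single 2 t (ξ t)) = g (lp.single 2 t (ξ t)) := by
    intro t
    rw [h3, map_smul, map_smul, h1]
  simp only [h6] at h4
  exact h4.unique h5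

theorem ENT_mc_sum {ι : Type*} (s : Finset ι) (f : ι → BH) (u v : JI) :
    mc (∑ i ∈ s, f i) u v = ∑ i ∈ s, mc (f i) u v := by
  unfold mc
  rw [ContinuousLinearMap.sum_apply, lp.coeFn_sum, Finset.sum_apply]

theorem ENT_GG (hEl : SEl) (hGc : SGc) (k : ℕ) (s t : JI) (hs : s ∈ JJ k) (ht : t ∈ JJ k)
    (h : C(SS, ℂ)) (x : SS) (u v : JI) : mc (GG k s t h x) u v =
    if low k u = s ∧ low k v = t ∧ high k u = high k v then h (pt x (high k u)) else 0 := by
  obtain ⟨⟨C, hC⟩, h2⟩ := hGc k s t hs ht h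
  rw [h2 x]
  unfold mc
  rw [(hEl k s t hs ht (fun T => h (pt x T)) C (hC x)).1, ENT_bv]
  by_cases h3 : low k u = s
  · rw [if_pos h3]
    by_cases h4 : low k v = t ∧ high k u = high k v
    · have h5 : jn t (high k u) = v := by
        rw [← h4.1, h4.2, ENT_split]
      rw [if_pos h5, if_pos ⟨h3, h4.1, h4.2⟩, mul_one]
    · have h5 : jn t (high k u) ≠ v := by
        intro h6
        apply h4
        constructor
        · rw [← h6, ENT_low_jn ht]
        · rw [← h6, ENT_high_jn ht]
      rw [if_neg h5, mul_zero, if_neg]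
      rintro ⟨-, h6⟩
      exact h4 h6
  · rw [if_neg h3, if_neg]
    rintro ⟨h4, -⟩
    exact h3 h4

/-- the entries of a sum over level `k` -/
theorem ENT_sum (hEl : SEl) (hGc : SGc) (k : ℕ) (a : JI → JI → C(SS, ℂ)) (x : SS) (u v : JI) :
    mc ((∑ s ∈ JJ k, ∑ t ∈ JJ k, GG k s t (a s t) : BB) x) u v =
      if high k u = high k v then a (low k u) (low k v) (pt x (high k u)) else 0 := by
  rw [ContinuousMap.sum_apply, ENT_mc_sum]
  have h1 : ∀ s ∈ JJ k, mc ((∑ t ∈ JJ k, GG k s t (a s t) : BB) x) u v =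
      if low k u = s then (if high k u = high k v then
        a (low k u) (low k v) (pt x (high k u)) else 0) else 0 := by
    intro s hs
    rw [ContinuousMap.sum_apply, ENT_mc_sum]
    have h2 : ∀ t ∈ JJ k, mc (GG k s t (a s t) x) u v =
        if low k v = t then (if low k u = s then (if high k u = high k v then
          a (low k u) (low k v) (pt x (high k u)) else 0) else 0) else 0 := by
      intro t ht
      rw [ENT_GG hEl hGc k s t hs ht]
      by_cases e1 : low k u = s
      · by_cases e2 : low k v = t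
        · by_cases e3 : high k u = high k v
          · rw [if_pos ⟨e1, e2, e3⟩, if_pos e2, if_pos e1, if_pos e3, e1, e2]
          · rw [if_neg (fun h => e3 h.2.2), if_pos e2, if_pos e1, if_neg e3]
        · rw [if_neg (fun h => e2 h.2.1), if_neg e2]
      · rw [if_neg (fun h => e1 h.1)]
        by_cases e2 : low k v = t
        · rw [if_pos e2, if_neg e1]
        · rw [if_neg e2]
    rw [Finset.sum_congr rfl h2, Finset.sum_ite_eq, if_pos (ENT_low_mem k v)]
  rw [Finset.sum_congr rfl h1, Finset.sum_ite_eq, if_pos (ENT_low_mem k u)]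

theorem ENT_PP (hEl : SEl) (m : ℕ) (ξ : HH) (u : JI) :
    (PP m ξ : JI → ℂ) u = if u ∈ JJ m then ξ u else 0 := by
  have hex : ∃ W : BH, ∀ (ξ : HH) (u : JI), (W ξ : JI → ℂ) u = if u ∈ JJ m then ξ u else 0 := by
    refine ⟨∑ s ∈ JJ m, el m s s (fun T => if T = ∅ then 1 else 0), fun ξ u => ?_⟩
    rw [ContinuousLinearMap.sum_apply, lp.coeFn_sum, Finset.sum_apply]
    have h1 : ∀ s ∈ JJ m, (el m s s (fun T => if T = ∅ then 1 else 0) ξ : JI → ℂ) u =
        if low m u = s then (if high m u = ∅ then ξ u else 0) else 0 := by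
      intro s hs
      rw [(hEl m s s hs hs (fun T => if T = ∅ then 1 else 0) 1 (fun T => by
        split_ifs <;> simp)).1]
      by_cases e1 : low m u = s
      · rw [if_pos e1, if_pos e1]
        by_cases e2 : high m u = ∅
        · rw [if_pos e2, if_pos e2, one_mul]
          rw [← e1, ENT_split]
        · rw [if_neg e2, if_neg e2, zero_mul]
      · rw [if_neg e1, if_neg e1]
    rw [Finset.sum_congr rfl h1, Finset.sum_ite_eq, if_pos (ENT_low_mem m u)]
    by_cases e : u ∈ JJ m
    · rw [if_pos e, if_pos (ENT_high_eq.mp e)]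
    · rw [if_neg e, if_neg (fun h => e (ENT_high_eq.mpr h))]
  exact Classical.epsilon_spec hex ξ u

theorem ENT_mono (h : SLev) {k m : ℕ} {f : BB} (hf : Lev k f) (hkm : k ≤ m) : Lev m f := by
  induction m, hkm using Nat.le_induction with
  | base => exact hf
  | succ m _ ih => exact h.1 m f ih

theorem sEnt (hEl : SEl) (hEla : SEla) (hGc : SGc) (hLev : SLev) : SEnt := by
  refine ⟨fun k s t hs ht h x u v => ENT_GG hEl hGc k s t hs ht h x u v, ?_, ?_⟩
  · intro k f hf m hkm
    obtain ⟨a, ha, rfl⟩ := ENT_mono hLev hf hkm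
    refine ⟨a, fun s hs t ht => ⟨ha s hs t ht, fun x => ?_⟩⟩
    rw [ENT_sum hEl hGc, ENT_high_eq.mp hs, ENT_high_eq.mp ht, if_pos rfl, ENT_low_eq hs,
      ENT_low_eq ht]
    unfold pt
    rw [dif_neg Finset.not_nonempty_empty]
  · intro k f hf m hkm x
    obtain ⟨a, ha, rfl⟩ := ENT_mono hLev hf hkm
    apply hEla.1
    intro u v
    have e1 : mc (PP m * (∑ s ∈ JJ m, ∑ t ∈ JJ m, GG m s t (a s t) : BB) x) u v =
        if u ∈ JJ m then mc ((∑ s ∈ JJ m, ∑ t ∈ JJ m, GG m s t (a s t) : BB) x) u v else 0 := by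
      unfold mc
      rw [ContinuousLinearMap.mul_apply, ENT_PP hEl]
    have e2 : mc ((∑ s ∈ JJ m, ∑ t ∈ JJ m, GG m s t (a s t) : BB) x * PP m) u v =
        if v ∈ JJ m then mc ((∑ s ∈ JJ m, ∑ t ∈ JJ m, GG m s t (a s t) : BB) x) u v else 0 := by
      unfold mc
      rw [ContinuousLinearMap.mul_apply]
      have h1 : PP m (bv v) = if v ∈ JJ m then bv v else 0 := by
        apply lp.ext
        funext w
        rw [ENT_PP hEl]
        by_cases hv : v ∈ JJ m
        · rw [if_pos hv, ENT_bv]
          by_cases hw : w = v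
          · rw [hw, if_pos hv]
          · rw [if_neg hw, ite_self]
        · rw [if_neg hv, ENT_bv]
          by_cases hw : w = v
          · rw [hw, if_neg hv]
            rfl
          · rw [if_neg hw, ite_self]
            rfl
      rw [h1]
      split_ifs
      · rfl
      · rw [map_zero]
        rfl
    rw [e1, e2]
    by_cases hu : u ∈ JJ m
    · by_cases hv : v ∈ JJ m
      · rw [if_pos hu, if_pos hv]
      · rw [if_pos hu, if_neg hv, ENT_sum hEl hGc, if_neg]
        intro h
        apply hv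
        rw [ENT_high_eq, ← h, ENT_high_eq.mp hu]
    · by_cases hv : v ∈ JJ m
      · rw [if_neg hu, if_pos hv, ENT_sum hEl hGc, if_neg]
        intro h
        apply hu
        rw [ENT_high_eq, h, ENT_high_eq.mp hv]
      · rw [if_neg hu, if_neg hv]

end

end Pool.OPP
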