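import Pool.Agent.H7.OPP.Stmts

/-!
# OPP, module QEQ: equivariance and pattern for all elements of `AA`
-/

set_option autoImplicit false

open scoped Topology ComplexConjugate Uniformity

namespace Pool.OPP

noncomputable section

theorem QEQ_mem {k : ℕ} {s : JI} : s ∈ JJ k ↔ ∀ i ∈ s.2, i < k := by
  unfold JJ
  rw [Finset.mem_product, Finset.mem_powerset, Finset.subset_iff]
  simp

theorem QEQ_low_mem (k : ℕ) (u : JI) : low k u ∈ JJ k := by
  rw [QEQ_mem]
  intro i hi
  exact (Finset.mem_filter.mp hi).2

theorem QEQ_low {k : ℕ} {u : JI} (h : high k u = ∅) : low k u = u := by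
  unfold low
  refine Prod.ext rfl ?_
  apply Finset.filter_true_of_mem
  intro i hi
  by_contra h1
  have h2 : i ∈ high k u := Finset.mem_filter.mpr ⟨hi, not_lt.mp h1⟩
  rw [h] at h2
  exact absurd h2 (Finset.notMem_empty i)

/-- the type and the weight only depend on the high part, if it is not empty -/
theorem QEQ_sup {k : ℕ} {u v : JI} (h : high k u = high k v) (hne : high k u ≠ ∅) :
    u.2.Nonempty ∧ v.2.Nonempty ∧ u.2.sup id = v.2.sup id := by
  have key : ∀ w : JI, high k w ≠ ∅ → w.2.Nonempty ∧ w.2.sup id = (high k w).sup id := by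
    intro w hw
    obtain ⟨i, hi⟩ := Finset.nonempty_iff_ne_empty.mpr hw
    have hi' := Finset.mem_filter.mp hi
    refine ⟨⟨i, hi'.1⟩, le_antisymm ?_ ?_⟩
    · refine Finset.sup_le fun l hl => ?_
      rcases lt_or_ge l k with h1 | h1
      · have h2 : id i ≤ (high k w).sup id := Finset.le_sup hi
        have h3 := hi'.2
        simp only [id] at h2 ⊢
        omega
      · exact Finset.le_sup (f := id) (Finset.mem_filter.mpr ⟨hl, h1⟩)
    · exact Finset.sup_mono (Finset.filter_subset _ _)
  have h1 := key u hne
  have h2 := key v (h ▸ hne)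
  exact ⟨h1.1, h2.1, by rw [h1.2, h2.2, h]⟩

theorem QEQ_typ {k : ℕ} {u v : JI} (h : high k u = high k v) (hne : high k u ≠ ∅) :
    typ u = typ v ∧ wt u = wt v := by
  obtain ⟨h1, h2, h3⟩ := QEQ_sup h hne
  unfold typ wt
  rw [if_pos h1, if_pos h2, if_pos h1, if_pos h2, h3]
  exact ⟨rfl, rfl⟩

theorem QEQ_chi {γ : ℕ → ZMod 3} {u v : JI} (h : wt u = wt v) : chi γ u = chi γ v := by
  unfold chi
  rw [h]

theorem QEQ_bv (s v : JI) : (bv s : JI → ℂ) v = if v = s then 1 else 0 := by
  unfold bv
  rw [lp.single_apply]
  by_cases h : v = s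
  · subst h
    simp
  · rw [Pi.single_eq_of_ne h, if_neg h]

theorem QEQ_ext {f g : BH} (h : ∀ s t, mc f s t = mc g s t) : f = g := by
  have h1 : ∀ t, f (bv t) = g (bv t) := by
    intro t
    apply lp.ext
    funext s
    exact h s t
  ext1 ξ
  have h2 := lp.hasSum_single (p := 2) (by simp) ξ
  have h3 : ∀ t : JI, lp.single 2 t (ξ t) = (ξ t : ℂ) • bv t := by
    intro t
    unfold bv
    rw [← lp.single_smul, smul_eq_mul, mul_one]
  have h4 := f.hasSum h2
  have h5 := g.hasSum h2
  have h6 : ∀ t : JI, f (lp.single 2 t (ξ t)) = g (lp.single 2 t (ξ t)) := by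
    intro t
    rw [h3, map_smul, map_smul, h1]
  simp only [h6] at h4
  exact h4.unique h5

theorem QEQ_mc_sum {ι : Type*} (s : Finset ι) (f : ι → BH) (u v : JI) :
    mc (∑ i ∈ s, f i) u v = ∑ i ∈ s, mc (f i) u v := by
  unfold mc
  rw [sum_apply, lp.coeFn_sum, Finset.sum_apply]

/-- the entries of a sum over level `k` -/
theorem QEQ_sum (hEnt : SEnt) (k : ℕ) (a : JI → JI → C(SS, ℂ)) (x : SS) (u v : JI) :
    mc ((∑ s ∈ JJ k, ∑ t ∈ JJ k, GG k s t (a s t) : BB) x) u v =
      if high k u = high k v then a (low k u) (low k v) (pt x (high k u)) else 0 := by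
  rw [ContinuousMap.sum_apply, QEQ_mc_sum]
  have h1 : ∀ s ∈ JJ k, mc ((∑ t ∈ JJ k, GG k s t (a s t) : BB) x) u v =
      if low k u = s then (if high k u = high k v then
        a (low k u) (low k v) (pt x (high k u)) else 0) else 0 := by
    intro s hs
    rw [ContinuousMap.sum_apply, QEQ_mc_sum]
    have h2 : ∀ t ∈ JJ k, mc (GG k s t (a s t) x) u v =
        if low k v = t then (if low k u = s then (if high k u = high k v then
          a (low k u) (low k v) (pt x (high k u)) else 0) else 0) else 0 := by
      intro t ht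
      rw [hEnt.1 k s t hs ht]
      by_cases e1 : low k u = s
      · by_cases e2 : low k v = t
        · by_cases e3 : high k u = high k v
          · rw [if_pos ⟨e1, e2, e3⟩, if_pos e2, if_pos e1, if_pos e3, e1, e2]
          · rw [if_neg (fun h => e3 h.2.2), if_pos e2, if_pos e1, if_neg e3]
        · rw [if_neg (fun h => e2 h.2.1), if_neg e2]
      · rw [if_neg (fun h => e1 h.1)]
        by_cases e2 : low k v = t
        · rw [if_pos e2, if_neg e1]
        · rw [if_neg e2]
    rw [Finset.sum_congr rfl h2, Finset.sum_ite_eq, if_pos (QEQ_low_mem k v)]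
  rw [Finset.sum_congr rfl h1, Finset.sum_ite_eq, if_pos (QEQ_low_mem k u)]

/-- a closed property of the elements of finite level holds for all elements of `AA` -/
theorem QEQ_closure (hLev : SLev) {P : BB → Prop} (hc : IsClosed {f | P f})
    (h : ∀ k f, Lev k f → P f) : ∀ f ∈ AA, P f := by
  intro f hf
  have h1 : f ∈ closure (A0 : Set BB) := by
    rwa [← SetLike.mem_coe, StarSubalgebra.topologicalClosure_coe] at hf
  have h2 : closure (A0 : Set BB) ⊆ {f | P f} := by
    refine closure_minimal (fun g hg => ?_) hc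
    obtain ⟨k, hk⟩ := (hLev.2.2.2.2.2 g).mp hg
    exact h k g hk
  exact h2 h1

theorem sQeq (hAct : SAct) (hDia : SDia) (hEnt : SEnt) (hLev : SLev) : SQeq := by
  obtain ⟨a1, a2, a3, a4, a5, a6, a7, a8, a9, a10, a11, a12, a13, a14, a15⟩ := hAct
  obtain ⟨d1, d2, d3, d4, d5, d6, d7, d8, d9, d10, d11, d12, d13, d14⟩ := hDia
  have hpt : ∀ (x y : SS) (T : Finset ℕ), T ≠ ∅ → pt x T = pt y T := by
    intro x y T hT
    unfold pt
    rw [dif_pos (Finset.nonempty_iff_ne_empty.mpr hT), dif_pos (Finset.nonempty_iff_ne_empty.mpr hT)]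
  have hpt0 : ∀ x : SS, pt x ∅ = x := by
    intro x
    unfold pt
    rw [dif_neg Finset.not_nonempty_empty]
  constructor
  · intro f hf γ x
    refine QEQ_closure hLev (P := fun f => f (act γ x) = UU γ * f x * star (UU γ)) ?_ ?_ f hf
    · refine isClosed_eq (continuous_eval_const _) ?_
      exact (continuous_const.mul (continuous_eval_const _)).mul continuous_const
    · intro k f hf
      obtain ⟨a, ha, rfl⟩ := hf
      apply QEQ_ext
      intro u v
      rw [d7, QEQ_sum hEnt, QEQ_sum hEnt]
      by_cases h : high k u = high k v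
      · rw [if_pos h, if_pos h]
        by_cases hne : high k u = ∅
        · rw [hne, hpt0, hpt0, QEQ_low hne, QEQ_low (h ▸ hne)]
          have hu : u ∈ JJ k := by
            have := QEQ_low_mem k u
            rwa [QEQ_low hne] at this
          have hv : v ∈ JJ k := by
            have := QEQ_low_mem k v
            rwa [QEQ_low (h ▸ hne)] at this
          exact (ha u hu v hv).1 γ x
        · rw [hpt (act γ x) x _ hne, QEQ_chi (QEQ_typ h hne).2]
          have h1 : chi γ v * conj (chi γ v) = 1 := by
            rw [Complex.mul_conj, Complex.normSq_eq_norm_sq, a9]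
            norm_num
          rw [h1, one_mul]
      · rw [if_neg h, if_neg h, mul_zero]
  · intro f hf w x hx
    refine QEQ_closure hLev (P := fun f => qq w.succ * f x = f x * qq w.succ) ?_ ?_ f hf
    · refine isClosed_eq ?_ ?_
      · exact continuous_const.mul (continuous_eval_const _)
      · exact (continuous_eval_const _).mul continuous_const
    · intro k f hf
      obtain ⟨a, ha, rfl⟩ := hf
      apply QEQ_ext
      intro u v
      rw [(d8 _ w.succ u v).1, (d8 _ w.succ u v).2, QEQ_sum hEnt]
      by_cases h : high k u = high k v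
      · rw [if_pos h]
        by_cases hne : high k u = ∅
        · rw [hne, hpt0, QEQ_low hne, QEQ_low (h ▸ hne)]
          have hu : u ∈ JJ k := by
            have := QEQ_low_mem k u
            rwa [QEQ_low hne] at this
          have hv : v ∈ JJ k := by
            have := QEQ_low_mem k v
            rwa [QEQ_low (h ▸ hne)] at this
          by_cases hiff : typ u = w.succ ↔ typ v = w.succ
          · by_cases h1 : typ u = w.succ
            · rw [if_pos h1, if_pos (hiff.mp h1)]
            · rw [if_neg h1, if_neg (fun h2 => h1 (hiff.mpr h2))]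
          · rw [(ha u hu v hv).2.1 w x hx hiff, ite_self, ite_self]
        · rw [(QEQ_typ h hne).1]
      · rw [if_neg h, ite_self, ite_self]

end

end Pool.OPP
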