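import Pool.Agent.H83.OPP.QEQ

/-!
# OPP, module SIM: simplicity
-/

set_option autoImplicit false

open scoped Topology ComplexConjugate Uniformity

namespace Pool.OPP

noncomputable section

theorem SIM_neumann {R : Type} [NormedRing R] [CompleteSpace R] (I : TwoSidedIdeal R) (p w : R)
    (hw : w ∈ I) (hpp : p * p = p) (hpw : p * w = w) (h : ‖p - w‖ < 1) : p ∈ I := by
  obtain ⟨u, hu⟩ := isUnit_one_sub_of_norm_lt_one h
  have e1 : p * (1 - (p - w)) = w := by
    rw [mul_sub, mul_sub, mul_one, hpp, hpw]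
    simp
  have e4 : p = w * (↑u⁻¹ : R) := by
    rw [← e1, ← hu, mul_assoc, Units.mul_inv, mul_one]
  rw [e4]
  exact I.mul_mem_right _ _ hw

theorem SIM_mc_add (f g : BH) (s t : JI) : mc (f + g) s t = mc f s t + mc g s t := rfl

theorem SIM_mc_sub (f g : BH) (s t : JI) : mc (f - g) s t = mc f s t - mc g s t := rfl

theorem SIM_mc_cont (f : BB) (s t : JI) : Continuous (fun x => mc (f x) s t) := by
  have h1 : Continuous (fun x => (f x) (bv t)) :=
    (ContinuousLinearMap.apply ℂ HH (bv t)).continuous.comp f.continuous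
  exact (continuous_apply s).comp ((lp.uniformContinuous_coe).continuous.comp h1)

theorem SIM_mono {k m : ℕ} (h : k ≤ m) {s : JI} (hs : s ∈ JJ k) : s ∈ JJ m := by
  rw [QEQ_mem] at hs ⊢
  intro i hi
  exact lt_of_lt_of_le (hs i hi) h

theorem SIM_notMem {m : ℕ} {s : JI} (hs : s ∈ JJ m) : m ∉ s.2 := by
  intro h
  exact lt_irrefl _ (QEQ_mem.mp hs m h)

theorem SIM_jn_mem {m : ℕ} {s : JI} (hs : s ∈ JJ m) : jn s {m} ∈ JJ (m + 1) := by
  rw [QEQ_mem] at hs ⊢
  intro i hi
  unfold jn at hi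
  rcases Finset.mem_union.mp hi with h | h
  · have := hs i h
    omega
  · have := Finset.mem_singleton.mp h
    omega

theorem SIM_mem_jn (m : ℕ) (s : JI) : m ∈ (jn s {m}).2 := by
  unfold jn
  exact Finset.mem_union_right _ (Finset.mem_singleton_self m)

theorem SIM_jn_inj {m : ℕ} {s t : JI} (hs : s ∈ JJ m) (ht : t ∈ JJ m)
    (h : jn s {m} = jn t {m}) : s = t := by
  unfold jn at h
  have h1 : s.1 = t.1 := (Prod.mk.inj h).1
  have h2 : s.2 ∪ {m} = t.2 ∪ {m} := (Prod.mk.inj h).2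
  refine Prod.ext h1 ?_
  ext i
  have h3 : i ∈ s.2 ∪ {m} ↔ i ∈ t.2 ∪ {m} := by rw [h2]
  rw [Finset.mem_union, Finset.mem_union, Finset.mem_singleton] at h3
  by_cases hi : i = m
  · subst hi
    exact ⟨fun h4 => absurd h4 (SIM_notMem hs), fun h4 => absurd h4 (SIM_notMem ht)⟩
  · constructor
    · intro h4
      rcases h3.mp (Or.inl h4) with h5 | h5
      · exact h5
      · exact absurd h5 hi
    · intro h4
      rcases h3.mpr (Or.inl h4) with h5 | h5
      · exact h5
      · exact absurd h5 hi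

/-- low and high parts when `k` is in `u.2` -/
theorem SIM_in {k : ℕ} {u : JI} (h : k ∈ u.2) :
    low (k + 1) u = jn (low k u) {k} ∧ high k u = insert k (high (k + 1) u) := by
  constructor
  · unfold low jn
    refine Prod.ext rfl ?_
    ext i
    simp only [Finset.mem_filter, Finset.mem_union, Finset.mem_singleton]
    constructor
    · rintro ⟨h1, h2⟩
      rcases Nat.lt_succ_iff_lt_or_eq.mp h2 with h3 | h3
      · exact Or.inl ⟨h1, h3⟩
      · exact Or.inr h3
    · rintro (⟨h1, h2⟩ | h1)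
      · exact ⟨h1, by omega⟩
      · subst h1
        exact ⟨h, by omega⟩
  · unfold high
    ext i
    simp only [Finset.mem_filter, Finset.mem_insert]
    constructor
    · rintro ⟨h1, h2⟩
      rcases Nat.eq_or_lt_of_le h2 with h3 | h3
      · exact Or.inl h3.symm
      · exact Or.inr ⟨h1, h3⟩
    · rintro (h1 | ⟨h1, h2⟩)
      · subst h1
        exact ⟨h, le_refl _⟩
      · exact ⟨h1, by omega⟩

theorem SIM_out {k : ℕ} {u : JI} (h : k ∉ u.2) :
    low (k + 1) u = low k u ∧ high k u = high (k + 1) u := by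
  constructor
  · unfold low
    refine Prod.ext rfl ?_
    ext i
    simp only [Finset.mem_filter]
    constructor
    · rintro ⟨h1, h2⟩
      rcases Nat.lt_succ_iff_lt_or_eq.mp h2 with h3 | h3
      · exact ⟨h1, h3⟩
      · subst h3
        exact absurd h1 h
    · rintro ⟨h1, h2⟩
      exact ⟨h1, by omega⟩
  · unfold high
    ext i
    simp only [Finset.mem_filter]
    constructor
    · rintro ⟨h1, h2⟩
      rcases Nat.eq_or_lt_of_le h2 with h3 | h3
      · subst h3
        exact absurd h1 h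
      · exact ⟨h1, h3⟩
    · rintro ⟨h1, h2⟩
      exact ⟨h1, by omega⟩

theorem SIM_notMem_high (k : ℕ) (u : JI) : k ∉ high (k + 1) u := by
  intro h
  have := (Finset.mem_filter.mp h).2
  omega

theorem SIM_pt (x : SS) (k : ℕ) (u : JI) (h : k ∈ u.2) : pt x (high k u) = zz k := by
  have hk : k ∈ high k u := Finset.mem_filter.mpr ⟨h, le_refl _⟩
  have hne : (high k u).Nonempty := ⟨k, hk⟩
  unfold pt
  rw [dif_pos hne]
  congr 1
  refine le_antisymm (Finset.min'_le _ _ hk) ?_
  refine Finset.le_min' _ _ _ fun i hi => ?_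
  exact (Finset.mem_filter.mp hi).2

/-- one step of the inductive system -/
theorem SIM_gup (hEnt : SEnt) (k : ℕ) (s t : JI) (hs : s ∈ JJ k) (ht : t ∈ JJ k) (h : C(SS, ℂ)) :
    GG k s t h = GG (k + 1) s t h +
      GG (k + 1) (jn s {k}) (jn t {k}) (ContinuousMap.const SS (h (zz k))) := by
  ext1 x
  apply QEQ_ext
  intro u v
  rw [ContinuousMap.add_apply, SIM_mc_add, hEnt.1 k s t hs ht,
    hEnt.1 (k + 1) s t (SIM_mono (Nat.le_succ k) hs) (SIM_mono (Nat.le_succ k) ht),
    hEnt.1 (k + 1) _ _ (SIM_jn_mem hs) (SIM_jn_mem ht)]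
  have hns := SIM_notMem hs
  have hnt := SIM_notMem ht
  by_cases hu : k ∈ u.2
  · obtain ⟨u1, u2⟩ := SIM_in hu
    have e1 : ¬ (low (k + 1) u = s ∧ low (k + 1) v = t ∧ high (k + 1) u = high (k + 1) v) := by
      rintro ⟨h1, -, -⟩
      apply hns
      rw [← h1, u1]
      exact SIM_mem_jn _ _
    rw [if_neg e1, zero_add]
    by_cases hv : k ∈ v.2
    · obtain ⟨v1, v2⟩ := SIM_in hv
      rw [u1, v1, SIM_pt x k u hu]
      have e2 : (low k u = s ∧ low k v = t ∧ high k u = high k v) ↔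
          (jn (low k u) {k} = jn s {k} ∧ jn (low k v) {k} = jn t {k} ∧
            high (k + 1) u = high (k + 1) v) := by
        constructor
        · rintro ⟨h1, h2, h3⟩
          refine ⟨by rw [h1], by rw [h2], ?_⟩
          rw [u2, v2] at h3
          have h4 := congrArg (fun S : Finset ℕ => S.erase k) h3
          simpa only [Finset.erase_insert (SIM_notMem_high k u),
            Finset.erase_insert (SIM_notMem_high k v)] using h4
        · rintro ⟨h1, h2, h3⟩
          exact ⟨SIM_jn_inj (QEQ_low_mem k u) hs h1, SIM_jn_inj (QEQ_low_mem k v) ht h2,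
            by rw [u2, v2, h3]⟩
      by_cases e3 : low k u = s ∧ low k v = t ∧ high k u = high k v
      · rw [if_pos e3, if_pos (e2.mp e3), ContinuousMap.const_apply]
      · rw [if_neg e3, if_neg (fun h4 => e3 (e2.mpr h4))]
    · obtain ⟨v1, v2⟩ := SIM_out hv
      have e2 : ¬ (low k u = s ∧ low k v = t ∧ high k u = high k v) := by
        rintro ⟨-, -, h3⟩
        have : k ∈ high k u := Finset.mem_filter.mpr ⟨hu, le_refl _⟩
        rw [h3] at this
        exact hv (Finset.mem_filter.mp this).1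
      have e3 : ¬ (low (k + 1) u = jn s {k} ∧ low (k + 1) v = jn t {k} ∧
          high (k + 1) u = high (k + 1) v) := by
        rintro ⟨-, h2, -⟩
        have : k ∈ (low (k + 1) v).2 := by
          rw [h2]
          exact SIM_mem_jn _ _
        exact hv (Finset.mem_filter.mp this).1
      rw [if_neg e2, if_neg e3]
  · obtain ⟨u1, u2⟩ := SIM_out hu
    have e1 : ¬ (low (k + 1) u = jn s {k} ∧ low (k + 1) v = jn t {k} ∧
        high (k + 1) u = high (k + 1) v) := by
      rintro ⟨h2, -, -⟩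
      have : k ∈ (low (k + 1) u).2 := by
        rw [h2]
        exact SIM_mem_jn _ _
      exact hu (Finset.mem_filter.mp this).1
    rw [if_neg e1, add_zero]
    by_cases hv : k ∈ v.2
    · obtain ⟨v1, v2⟩ := SIM_in hv
      have e2 : ¬ (low k u = s ∧ low k v = t ∧ high k u = high k v) := by
        rintro ⟨-, -, h3⟩
        have : k ∈ high k v := Finset.mem_filter.mpr ⟨hv, le_refl _⟩
        rw [← h3] at this
        exact hu (Finset.mem_filter.mp this).1
      have e3 : ¬ (low (k + 1) u = s ∧ low (k + 1) v = t ∧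
          high (k + 1) u = high (k + 1) v) := by
        rintro ⟨-, h2, -⟩
        apply hnt
        rw [← h2, v1]
        exact SIM_mem_jn _ _
      rw [if_neg e2, if_neg e3]
    · obtain ⟨v1, v2⟩ := SIM_out hv
      rw [u1, v1, u2, v2]

/-- a projection of level `M + 1` is under the projection of its low part -/
theorem SIM_step (hEnt : SEnt) (hGa : SGa) (M : ℕ) (r : JI) (hr : r ∈ JJ (M + 1)) :
    GG (M + 1) r r 1 * GG M (low M r) (low M r) 1 = GG (M + 1) r r 1 := by
  have hl := QEQ_low_mem M r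
  have hl1 : low M r ∈ JJ (M + 1) := SIM_mono (Nat.le_succ M) hl
  rw [SIM_gup hEnt M _ _ hl hl 1, mul_add,
    (hGa (M + 1) r r hr hr 1).2.1 _ _ hl1 hl1 1,
    (hGa (M + 1) r r hr hr 1).2.1 _ _ (SIM_jn_mem hl) (SIM_jn_mem hl) _]
  by_cases h : M ∈ r.2
  · have e1 : r = jn (low M r) {M} := by
      rw [← (SIM_in h).1]
      refine Prod.ext rfl ?_
      unfold low
      symm
      apply Finset.filter_true_of_mem
      exact QEQ_mem.mp hr
    have e2 : r ≠ low M r := by
      intro h1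
      have h2 := SIM_notMem hl
      rw [← h1] at h2
      exact h2 h
    rw [if_neg e2, if_pos e1, zero_add, ← e1]
    congr 1
    ext y
    simp
  · have e1 : r = low M r := by
      refine Prod.ext rfl ?_
      unfold low
      symm
      apply Finset.filter_true_of_mem
      intro i hi
      have h1 := QEQ_mem.mp hr i hi
      have h2 : i ≠ M := fun h3 => h (h3 ▸ hi)
      omega
    have e2 : r ≠ jn (low M r) {M} := by
      intro h1
      apply h
      rw [h1]
      exact SIM_mem_jn _ _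
    rw [if_pos e1, if_neg e2, add_zero, ← e1, one_mul]

theorem SIM_lev (hLev : SLev) {k m : ℕ} (h : k ≤ m) {f : BB} (hf : Lev k f) : Lev m f := by
  induction m, h using Nat.le_induction with
  | base => exact hf
  | succ m hm ih => exact hLev.1 m f ih

/-- the corner computation -/
theorem SIM_corner (hEnt : SEnt) (hGa : SGa) (m : ℕ) (c : JI → JI → C(SS, ℂ)) (s t r : JI)
    (hs : s ∈ JJ m) (ht : t ∈ JJ m) (hr : r ∈ JJ m) :
    GG (m + 1) (jn r {m}) (jn s {m}) 1 * (∑ s' ∈ JJ m, ∑ t' ∈ JJ m, GG m s' t' (c s' t')) *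
      GG (m + 1) (jn t {m}) (jn r {m}) 1 =
      c s t (zz m) • GG (m + 1) (jn r {m}) (jn r {m}) 1 := by
  have hs1 := SIM_jn_mem hs
  have ht1 := SIM_jn_mem ht
  have hr1 := SIM_jn_mem hr
  rw [Finset.mul_sum, Finset.sum_mul]
  have h1 : ∀ s' ∈ JJ m, GG (m + 1) (jn r {m}) (jn s {m}) 1 *
      (∑ t' ∈ JJ m, GG m s' t' (c s' t')) * GG (m + 1) (jn t {m}) (jn r {m}) 1 =
      if s = s' then c s t (zz m) • GG (m + 1) (jn r {m}) (jn r {m}) 1 else 0 := by
    intro s' hs'
    rw [Finset.mul_sum, Finset.sum_mul]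
    have h2 : ∀ t' ∈ JJ m, GG (m + 1) (jn r {m}) (jn s {m}) 1 * GG m s' t' (c s' t') *
        GG (m + 1) (jn t {m}) (jn r {m}) 1 =
        if t = t' then (if s = s' then c s t (zz m) • GG (m + 1) (jn r {m}) (jn r {m}) 1
          else 0) else 0 := by
      intro t' ht'
      have hs2 := SIM_jn_mem hs'
      have ht2 := SIM_jn_mem ht'
      have e1 : jn s {m} ≠ s' := by
        intro h
        apply SIM_notMem hs'
        rw [← h]
        exact SIM_mem_jn _ _
      rw [SIM_gup hEnt m s' t' hs' ht', mul_add,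
        (hGa (m + 1) _ _ hr1 hs1 1).2.1 _ _ (SIM_mono (Nat.le_succ m) hs')
          (SIM_mono (Nat.le_succ m) ht') _, if_neg e1, zero_add,
        (hGa (m + 1) _ _ hr1 hs1 1).2.1 _ _ hs2 ht2 _]
      by_cases e2 : s = s'
      · subst e2
        rw [if_pos rfl, (hGa (m + 1) _ _ hr1 ht2 _).2.1 _ _ ht1 hr1 _]
        by_cases e3 : t = t'
        · subst e3
          rw [if_pos rfl, if_pos rfl, if_pos rfl, (hGa (m + 1) _ _ hr1 hr1 1).2.2.2.1]
          congr 1
          ext y
          simp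
        · rw [if_neg e3, if_neg (fun h => e3 (SIM_jn_inj ht' ht h).symm)]
      · rw [if_neg (fun h => e2 (SIM_jn_inj hs hs' h)), zero_mul, if_neg e2, ite_self]
    rw [Finset.sum_congr rfl h2, Finset.sum_ite_eq, if_pos ht]
  rw [Finset.sum_congr rfl h1, Finset.sum_ite_eq, if_pos hs]

theorem SIM_coef (hEnt : SEnt) (m : ℕ) (c : JI → JI → C(SS, ℂ)) (s t : JI)
    (hs : s ∈ JJ m) (ht : t ∈ JJ m) (x : SS) :
    mc ((∑ s' ∈ JJ m, ∑ t' ∈ JJ m, GG m s' t' (c s' t') : BB) x) s t = c s t x := by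
  have hh1 : ∀ u ∈ JJ m, high m u = ∅ := by
    intro u hu
    unfold high
    apply Finset.filter_eq_empty_iff.mpr
    intro i hi
    have := QEQ_mem.mp hu i hi
    omega
  rw [QEQ_sum hEnt, hh1 s hs, hh1 t ht, if_pos rfl, QEQ_low (hh1 s hs), QEQ_low (hh1 t ht)]
  unfold pt
  rw [dif_neg Finset.not_nonempty_empty]

theorem SIM_main (hZz : SZz) (hMu : SMu) (hLev : SLev) (hDen : SDen) (hEnt : SEnt)
    (hDia : SDia) (hGa : SGa) (I : TwoSidedIdeal AA) (hI : I ≠ ⊥) : (1 : AA) ∈ I := by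
  classical
  obtain ⟨b, hbI, hb0⟩ : ∃ b : AA, b ∈ I ∧ b ≠ 0 := by
    by_contra hcon
    push Not at hcon
    apply hI
    ext x
    rw [TwoSidedIdeal.mem_bot]
    exact ⟨fun hx => hcon x hx, fun hx => by rw [hx]; exact I.zero_mem⟩
  -- the predicate on `BB`
  let P : BB → Prop := fun f => ∃ h : f ∈ AA, (⟨f, h⟩ : AA) ∈ I
  have Pl : ∀ f g : BB, g ∈ AA → P f → P (g * f) := by
    rintro f g hg ⟨h, hf⟩
    exact ⟨mul_mem hg h, I.mul_mem_left ⟨g, hg⟩ ⟨f, h⟩ hf⟩
  have Pr : ∀ f g : BB, g ∈ AA → P f → P (f * g) := by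
    rintro f g hg ⟨h, hf⟩
    exact ⟨mul_mem h hg, I.mul_mem_right ⟨f, h⟩ ⟨g, hg⟩ hf⟩
  have Padd : ∀ f g : BB, P f → P g → P (f + g) := by
    rintro f g ⟨h, hf⟩ ⟨h', hg⟩
    exact ⟨add_mem h h', I.add_mem hf hg⟩
  have P0 : P 0 := ⟨zero_mem _, I.zero_mem⟩
  have Psum : ∀ {ι : Type} (A : Finset ι) (F : ι → BB), (∀ i ∈ A, P (F i)) →
      P (∑ i ∈ A, F i) := by
    intro ι A F
    induction A using Finset.induction_on with
    | empty => intro _; simpa using P0
    | insert a A ha ih =>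
      intro h
      rw [Finset.sum_insert ha]
      exact Padd _ _ (h a (Finset.mem_insert_self _ _))
        (ih fun i hi => h i (Finset.mem_insert_of_mem hi))
  -- a nonzero coefficient
  obtain ⟨x0, s, t, hγ⟩ : ∃ (x0 : SS) (s t : JI), mc ((b : BB) x0) s t ≠ 0 := by
    by_contra hcon
    push Not at hcon
    apply hb0
    apply Subtype.ext
    ext1 x
    refine QEQ_ext fun s t => ?_
    rw [hcon x s t]
    rfl
  set γ := mc ((b : BB) x0) s t with hγdef
  have hγpos : 0 < ‖γ‖ := norm_pos_iff.2 hγ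
  have hmc : ∀ (f : BB) (x : SS) (s t : JI), ‖mc (f x) s t‖ ≤ ‖f‖ := fun f x s t =>
    (hDia.2.2.2.2.2.2.2.2.2.2.1 _ _ _).trans (ContinuousMap.norm_coe_le_norm f x)
  -- approximation
  obtain ⟨k, a', -, ha'⟩ := hDen Unit (fun _ => (b : BB)) (fun _ => b.2) (‖γ‖ / 4)
    (by positivity) 0
  obtain ⟨hak, haA, hab⟩ := ha' ()
  set a := a' () with ha
  -- the stages
  have hUo : IsOpen {y : SS | ‖mc (a y) s t - mc (a x0) s t‖ < ‖γ‖ / 4} :=
    isOpen_lt (((SIM_mc_cont a s t).sub continuous_const).norm) continuous_const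
  obtain ⟨n, hn, hnv⟩ := hZz (max k (max (s.2.sup id + 1) (t.2.sup id + 1))) _ hUo
    ⟨x0, by simp [hγpos]⟩
  have hkn : k ≤ (hh + 1) * n := (le_max_left _ _).trans hn
  have hsn : s ∈ JJ ((hh + 1) * n) := by
    rw [QEQ_mem]
    intro i hi
    have h1 : i ≤ s.2.sup id := Finset.le_sup (f := id) hi
    have h2 : s.2.sup id + 1 ≤ (hh + 1) * n :=
      ((le_max_left _ _).trans (le_max_right _ _)).trans hn
    omega
  have htn : t ∈ JJ ((hh + 1) * n) := by
    rw [QEQ_mem]
    intro i hi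
    have h1 : i ≤ t.2.sup id := Finset.le_sup (f := id) hi
    have h2 : t.2.sup id + 1 ≤ (hh + 1) * n :=
      ((le_max_right _ _).trans (le_max_right _ _)).trans hn
    omega
  have hnorm1 : ‖(1 : C(SS, ℂ))‖ ≤ 1 := by
    rw [ContinuousMap.norm_le _ zero_le_one]
    intro x
    simp
  -- the new projections are in the ideal
  have hnew : ∀ v, v < hh + 1 → ∀ r ∈ JJ ((hh + 1) * n + v),
      P (GG ((hh + 1) * n + v + 1) (jn r {(hh + 1) * n + v}) (jn r {(hh + 1) * n + v}) 1) := by
    intro v hv r hr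
    set m := (hh + 1) * n + v with hm
    have hsm : s ∈ JJ m := SIM_mono (by omega) hsn
    have htm : t ∈ JJ m := SIM_mono (by omega) htn
    have hlev : Lev m a := SIM_lev hLev (by omega) hak
    obtain ⟨c, -, hc⟩ := hlev
    have hlam : mc (a (zz m)) s t = c s t (zz m) := by
      rw [hc]
      exact SIM_coef hEnt m c s t hsm htm _
    set lam := mc (a (zz m)) s t with hlamdef
    have h1 : ‖γ - mc (a x0) s t‖ < ‖γ‖ / 4 := by
      have h2 : mc (a x0) s t - γ = mc ((a - (b : BB)) x0) s t := rfl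
      rw [norm_sub_rev, h2]
      exact (hmc _ _ _ _).trans_lt hab
    have h2 : ‖lam - mc (a x0) s t‖ < ‖γ‖ / 4 := hnv v hv
    have hlamge : ‖γ‖ / 2 < ‖lam‖ := by
      have e1 : γ = (γ - mc (a x0) s t) - (lam - mc (a x0) s t) + lam := by ring
      have e2 : ‖γ‖ ≤ ‖γ - mc (a x0) s t‖ + ‖lam - mc (a x0) s t‖ + ‖lam‖ := by
        conv_lhs => rw [e1]
        exact (norm_add_le _ _).trans (add_le_add (norm_sub_le _ _) le_rfl)
      linarith
    have hlam0 : lam ≠ 0 := by
      intro h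
      rw [h, norm_zero] at hlamge
      linarith
    have hs1 := SIM_jn_mem hsm
    have ht1 := SIM_jn_mem htm
    have hr1 := SIM_jn_mem hr
    set X := GG (m + 1) (jn r {m}) (jn s {m}) 1 with hX
    set Y := GG (m + 1) (jn t {m}) (jn r {m}) 1 with hY
    set p := GG (m + 1) (jn r {m}) (jn r {m}) 1 with hp
    have hXA : X ∈ AA := hMu.1 m r hr s hsm
    have hYA : Y ∈ AA := hMu.1 m t htm r hr
    have hpA : p ∈ AA := hMu.1 m r hr r hr
    have hXaY : X * a * Y = lam • p := by
      rw [hlam, hc]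
      exact SIM_corner hEnt hGa m c s t r hsm htm hr
    have hpX : p * X = X := by
      rw [hp, hX, (hGa (m + 1) _ _ hr1 hr1 1).2.1 _ _ hr1 hs1 1, if_pos rfl, one_mul]
    have hpp : p * p = p := by
      rw [hp, (hGa (m + 1) _ _ hr1 hr1 1).2.1 _ _ hr1 hr1 1, if_pos rfl, one_mul]
    have hPb : P (X * (b : BB) * Y) := by
      have : P (b : BB) := ⟨b.2, hbI⟩
      exact Pr _ _ hYA (Pl _ _ hXA this)
    set w := lam⁻¹ • (X * (b : BB) * Y) with hw
    have hPw : P w := by
      have : w = (algebraMap ℂ BB lam⁻¹) * (X * (b : BB) * Y) := by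
        rw [hw, Algebra.smul_def]
      rw [this]
      exact Pl _ _ (AA.algebraMap_mem _) hPb
    have hpw : p * w = w := by
      rw [hw, mul_smul_comm, ← mul_assoc, ← mul_assoc, hpX]
    have hwp : ‖w - p‖ < 1 := by
      have e1 : w - p = lam⁻¹ • (X * ((b : BB) - a) * Y) := by
        rw [mul_sub, sub_mul, smul_sub, hXaY, smul_smul, inv_mul_cancel₀ hlam0, one_smul]
      rw [e1, norm_smul, norm_inv]
      have hn1 : ‖(b : BB) - a‖ ≤ ‖γ‖ / 4 := by
        rw [norm_sub_rev]
        exact hab.le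
      have e2 : ‖X * ((b : BB) - a) * Y‖ ≤ ‖γ‖ / 4 := by
        have n1 : ‖X‖ ≤ 1 := ((hGa (m + 1) _ _ hr1 hs1 1).2.2.2.2.1).trans hnorm1
        have n2 : ‖Y‖ ≤ 1 := ((hGa (m + 1) _ _ ht1 hr1 1).2.2.2.2.1).trans hnorm1
        calc ‖X * ((b : BB) - a) * Y‖ ≤ ‖X * ((b : BB) - a)‖ * ‖Y‖ := norm_mul_le _ _
          _ ≤ (‖X‖ * ‖(b : BB) - a‖) * ‖Y‖ :=
            mul_le_mul_of_nonneg_right (norm_mul_le _ _) (norm_nonneg _)
          _ ≤ (1 * (‖γ‖ / 4)) * 1 := by
            apply mul_le_mul _ n2 (norm_nonneg _) (by positivity)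
            exact mul_le_mul n1 hn1 (norm_nonneg _) zero_le_one
          _ = ‖γ‖ / 4 := by ring
      have hpos : 0 < ‖lam‖ := norm_pos_iff.2 hlam0
      rw [inv_mul_lt_iff₀ hpos]
      linarith
    obtain ⟨hwA, hwI⟩ := hPw
    refine ⟨hpA, ?_⟩
    refine SIM_neumann I ⟨p, hpA⟩ ⟨w, hwA⟩ hwI (Subtype.ext hpp) (Subtype.ext hpw) ?_
    have : ‖(⟨p, hpA⟩ : AA) - ⟨w, hwA⟩‖ = ‖p - w‖ := rfl
    rw [this, norm_sub_rev]
    exact hwp
  -- the old projections of the right type
  have hold : ∀ v, v < hh + 1 → ∀ r ∈ JJ ((hh + 1) * n + v), (typ r : ℕ) = v →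
      P (GG ((hh + 1) * n + v + 1) r r 1) := by
    intro v hv r hr hty
    have hmod : ((hh + 1) * n + v) % (hh + 1) = v := by
      rw [Nat.mul_add_mod, Nat.mod_eq_of_lt hv]
    obtain ⟨L, D, hD1, hD2, hD3⟩ := hMu.2.1 _ r hr (by rw [hmod]; exact hty)
    rw [← hD3]
    refine Psum _ _ fun i _ => ?_
    refine Pl _ _ (star_mem (hD1 i)) ?_
    rw [← hD2 i]
    exact Pr _ _ (hD1 i) (hnew v hv r hr)
  -- from level `m` to level `M`
  have hup : ∀ (k M : ℕ), k ≤ M → ∀ r ∈ JJ M, P (GG k (low k r) (low k r) 1) →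
      P (GG M r r 1) := by
    intro k M hkM
    induction M, hkM using Nat.le_induction with
    | base =>
      intro r hr h
      have e1 : low k r = r := by
        refine Prod.ext rfl ?_
        unfold low
        apply Finset.filter_true_of_mem
        exact QEQ_mem.mp hr
      rwa [e1] at h
    | succ M hM ih =>
      intro r hr h
      have e1 : low k (low M r) = low k r := by
        refine Prod.ext rfl ?_
        unfold low
        ext i
        simp only [Finset.mem_filter]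
        constructor
        · rintro ⟨⟨h1, -⟩, h2⟩
          exact ⟨h1, h2⟩
        · rintro ⟨h1, h2⟩
          exact ⟨⟨h1, by omega⟩, h2⟩
      have h2 := ih (low M r) (QEQ_low_mem M r) (by rw [e1]; exact h)
      rw [← SIM_step hEnt hGa M r hr]
      exact Pl _ _ (hMu.2.2 (M + 1) r hr) h2
  -- all projections of level `(hh+1)(n+1)`
  have hall : ∀ r ∈ JJ ((hh + 1) * (n + 1)), P (GG ((hh + 1) * (n + 1)) r r 1) := by
    intro r hr
    have hMeq : (hh + 1) * (n + 1) = (hh + 1) * n + (hh + 1) := by ring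
    by_cases hex : ∃ v, v < hh + 1 ∧ (hh + 1) * n + v ∈ r.2
    · obtain ⟨v, hv, hvr⟩ := hex
      refine hup ((hh + 1) * n + v + 1) _ (by omega) r hr ?_
      rw [(SIM_in hvr).1]
      exact hnew v hv _ (QEQ_low_mem _ _)
    · push Not at hex
      have hr0 : r ∈ JJ ((hh + 1) * n) := by
        rw [QEQ_mem]
        intro i hi
        by_contra hcon
        push Not at hcon
        have h1 := QEQ_mem.mp hr i hi
        apply hex (i - (hh + 1) * n) (by omega)
        rwa [Nat.add_sub_cancel' hcon]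
      have hv : (typ r : ℕ) < hh + 1 := (typ r).2
      refine hup ((hh + 1) * n + (typ r : ℕ) + 1) _ (by omega) r hr ?_
      have e1 : low ((hh + 1) * n + (typ r : ℕ) + 1) r = r := by
        refine Prod.ext rfl ?_
        unfold low
        apply Finset.filter_true_of_mem
        intro i hi
        have := QEQ_mem.mp hr0 i hi
        omega
      rw [e1]
      exact hold _ hv r (SIM_mono (by omega) hr0) rfl
  have hmem : (istar, (∅ : Finset ℕ)) ∈ JJ ((hh + 1) * (n + 1)) := by
    rw [QEQ_mem]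
    intro i hi
    exact absurd hi (Finset.notMem_empty i)
  have hP1 : P 1 := by
    rw [← (hGa ((hh + 1) * (n + 1)) _ _ hmem hmem 1).2.2.2.2.2]
    exact Psum _ _ hall
  obtain ⟨h, h'⟩ := hP1
  exact h'

theorem sSim (hZz : SZz) (hMu : SMu) (hLev : SLev) (hDen : SDen) (hEnt : SEnt)
    (hDia : SDia) (hGa : SGa) : SSim := by
  intro I _
  by_cases hI : I = ⊥
  · exact Or.inl hI
  · right
    have h1 := SIM_main hZz hMu hLev hDen hEnt hDia hGa I hI
    rw [eq_top_iff]
    intro x _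
    have := I.mul_mem_left x 1 h1
    rwa [mul_one] at this

end

end Pool.OPP
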