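import Pool.Agent.H91.OPP.TTB

/-!
# OPP, module CELL: one step on the product of spheres
-/

set_option autoImplicit false

namespace Pool.OPP

open scoped Topology Uniformity

theorem cell_pN_id {X : Type} : pN (fun x : X => x) = 1 := by
  apply AddMonoidHom.ext
  intro φ
  apply Subtype.ext
  funext l
  show φ.1 (l.map fun x => x) = φ.1 l
  rw [List.map_id']

theorem cell_fs {N : ℕ → ℕ} (j r L : ℕ) (hL : 0 < L) :
    (fs j r L L : XX N → XX N) = rtt j r (Real.pi / 2) ∧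
    ∀ q, (fs j r L q : XX N → XX N) = rtt j r (Real.pi / 2 * ((q : ℝ) / (L : ℝ))) := by
  refine ⟨?_, fun q => rfl⟩
  unfold fs
  rw [div_self (by exact_mod_cast hL.ne'), mul_one]

theorem cell_rel (hOPS : S_OPS) (hROT : S_ROT) (N : ℕ → ℕ) (J : Finset ℕ) (j : {j : ℕ // j ∈ J})
    (c L : ℕ) (hL : 0 < L) (hc : c + 2 ≤ N j) :
    Rel (dN (XX N)) (TN N J) j (fN (fs j c L) L) (fN (fs j (c + 1) L) L)
      (pN (rtt j c (Real.pi / 2))) (pN (rtt j (c + 1) (Real.pi / 2))) := by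
  classical
  obtain ⟨o1, o2, o3, o4, o5, o6⟩ := hOPS (XX N)
  obtain ⟨r1, r2, r3, r4, r5⟩ := hROT N
  have hf0 : ∀ r, (fs (j : ℕ) r L 0 : XX N → XX N) = fun x => x := by
    intro r
    funext x
    rw [(cell_fs (j : ℕ) r L hL).2 0, Nat.cast_zero, zero_div, mul_zero]
    exact r3 j r x
  have hfL : ∀ r, (fs (j : ℕ) r L L : XX N → XX N) = rtt j r (Real.pi / 2) :=
    fun r => (cell_fs (j : ℕ) r L hL).1
  refine ⟨?_, ?_, ?_, ?_, ?_, ?_, ?_, ?_, ?_, ?_⟩
  · intro i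
    exact o1 _
  · intro i k
    show pN _ * pN _ = pN _ * pN _
    rw [o2, o2]
    congr 1
    funext x
    exact r1 _ _ x
  · intro i
    show pN _ * pN _ * pN _ = 1
    rw [o2, o2, ← cell_pN_id]
    congr 1
    funext x
    exact r2 _ x
  · rw [o4, hfL, hf0, cell_pN_id]
  · rw [o4, hfL, hf0, cell_pN_id]
  · intro i hi
    refine o5 _ L _ fun q x => ?_
    rw [(cell_fs (j : ℕ) c L hL).2 q]
    exact r5 i j c _ x (fun h => hi (Subtype.ext h))
  · intro i hi
    refine o5 _ L _ fun q x => ?_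
    rw [(cell_fs (j : ℕ) (c + 1) L hL).2 q]
    exact r5 i j (c + 1) _ x (fun h => hi (Subtype.ext h))
  · show pN _ * pN _ = pN _
    rw [o2]
    congr 1
    funext x
    exact (r4 j c 0 0 x (by omega)).2
  · show pN _ * pN _ = pN _
    rw [o2]
    congr 1
    funext x
    exact (r4 j (c + 1) 0 0 x (by omega)).2
  · refine o6 _ L _ fun q x => ?_
    rw [(cell_fs (j : ℕ) c L hL).2 q]
    exact (r4 j (c + 1) c _ x (by omega)).1

theorem cell_Nm {N : ℕ → ℕ} {J : Finset ℕ} (hROTM : S_ROTM) (j : {j : ℕ // j ∈ J})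
    (c : ℕ → ℕ) (ε : ℝ) (hε : 0 ≤ ε) (χ : NC (XX N)) (h : ∀ l ∈ Sm N c ε, χ.1 l = 0) :
    ∀ l ∈ Sm N c ε, (Nm (TN N J j) χ).1 l = 0 := by
  intro l hl
  have h1 := (hROTM N c ε hε).1 j l hl
  have h2 := (hROTM N c ε hε).1 j _ h1
  show χ.1 l + χ.1 (l.map (tt (j : ℕ))) + χ.1 ((l.map (tt (j : ℕ))).map (tt (j : ℕ))) = 0
  rw [h l hl, h _ h1, h _ h2]
  ring

theorem cell_fil {N : ℕ → ℕ} (hROTM : S_ROTM) (hLOCP : S_LOCP) (j : ℕ)
    (c : ℕ → ℕ) (ε : ℝ) (hε : 0 ≤ ε) (L : ℕ) (hL : 0 < L) (hc : c j < N j) (χ : NC (XX N))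
    (h : ∀ l ∈ Sm N (Function.update c j (c j + 1)) (ε + 4 / L), χ.1 l = 0) :
    ∀ l ∈ Sm N c ε, (fN (fs j (c j) L) L χ).1 l = 0 := by
  intro l hl
  show ∑ q ∈ Finset.range L, pri (fs j (c j) L q) (fs j (c j) L (q + 1)) χ.1 l = 0
  refine Finset.sum_eq_zero fun q _ => ?_
  refine hLOCP _ _ _ l χ.1 fun l' hl' => h l' ?_
  exact (hROTM N c ε hε).2 j L q hc hL l l' hl hl'

/-- the arithmetic of the labels -/
theorem cell_val (a : ZMod 3) : ((a + 1).val : ℤ) = (a.val : ℤ) + 1 + 3 * (if a = 2 then -1 else 0) := by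
  revert a
  decide

theorem cell (hSTEP : S_STEP) (hCLM : S_CLM) (hOPS : S_OPS) (hLOCP : S_LOCP) (hCUP : S_CUP)
    (hCUPN : S_CUPN) (hCUPD : S_CUPD) (hROT : S_ROT) (hROTM : S_ROTM) : S_CELL := by
  classical
  intro N J c ε p L C φ hε hL hp hc hC hS hdel hT
  obtain ⟨hpJ, hlab⟩ := hp
  set j : {j : ℕ // j ∈ J} := ⟨p.1, hpJ⟩ with hj
  set F := fN (fs p.1 (c p.1) L : ℕ → XX N → XX N) L with hF
  set F' := fN (fs p.1 (c p.1 + 1) L : ℕ → XX N → XX N) L with hF'
  have hRel : Rel (dN (XX N)) (TN N J) j F F' (pN (rtt p.1 (c p.1) (Real.pi / 2)))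
      (pN (rtt p.1 (c p.1 + 1) (Real.pi / 2))) :=
    cell_rel hOPS hROT N J j (c p.1) L hL hc
  refine ⟨C.comp (KK (TN N J) j F F'), ?_, ?_, ?_⟩
  · exact hSTEP _ _ _ _ j _ _ _ _ hRel C hC
  · intro ψ hψ
    refine hS (KK (TN N J) j F F' ψ) fun l hl => ?_
    -- the innermost operator
    have hε1 : 0 ≤ ε + 4 / (L : ℝ) := by positivity
    set c1 : ℕ → ℕ := Function.update c p.1 (c p.1 + 1) with hc1
    have hc1p : c1 p.1 = c p.1 + 1 := by rw [hc1, Function.update_self]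
    have e1 : Function.update c1 p.1 (c1 p.1 + 1) = Function.update c p.1 (c p.1 + 2) := by
      rw [hc1p, hc1, Function.update_idem]
    have e2 : ε + 4 / (L : ℝ) + 4 / L = ε + 8 / L := by ring
    have s1 : ∀ l ∈ Sm N c1 (ε + 4 / L), (F' ψ).1 l = 0 := by
      have := cell_fil hROTM hLOCP p.1 c1 (ε + 4 / L) hε1 L hL (by omega) ψ (by
        rw [e1, e2]; exact hψ)
      rw [hc1p] at this
      exact this
    have s2 := cell_Nm hROTM j c1 (ε + 4 / L) hε1 (F' ψ) s1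
    have s3 : ∀ l ∈ Sm N c ε, (F (Nm (TN N J j) (F' ψ))).1 l = 0 :=
      cell_fil hROTM hLOCP p.1 c ε hε L hL (by omega) (Nm (TN N J j) (F' ψ)) s2
    have h1 := (hROTM N c ε hε).1 p.1 l hl
    show (F (Nm (TN N J j) (F' ψ))).1 (l.map (tt p.1)) - (F (Nm (TN N J j) (F' ψ))).1 l = 0
    rw [s3 _ h1, s3 _ hl]
    ring
  · intro ε' hε'
    obtain ⟨n1, n2, n3, n4, n5⟩ := hCUPN (XX N) p.2 φ.1 φ.2
    obtain ⟨d1, d2, d3, d4⟩ := hCUPD (XX N) p.2
    obtain ⟨u1, u2⟩ := hCUP (XX N) p.2 φ.1 hdel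
    set u : XX N → ℤ := fun x => ((p.2 x).val : ℤ) with hu
    set v : XX N → ℤ := fun x => if p.2 x = 2 then -1 else 0 with hv
    set al : NC (XX N) := ⟨cup1 (la p.2) φ.1, n2⟩ with hal
    set lam : NC (XX N) := ⟨cup0 u φ.1, n3 u⟩ with hlam
    set chi : NC (XX N) := ⟨cup0 v φ.1, n3 v⟩ with hchi
    -- the cochain chi'
    have hk : ∀ x y, ∃ k : ℤ, la p.2 x y = u y - u x + 3 * k := d3
    choose kk hkk using hk
    have hchi'v : ∀ l, 3 * cup1 kk φ.1 l = cup1 (la p.2) φ.1 l - del (cup0 u φ.1) l := by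
      intro l
      rw [u2]
      match l with
      | [] => simp [cup1]
      | [_] => simp [cup1]
      | x :: y :: l =>
        simp only [cup1]
        rw [hkk x y]
        ring
    have hmem : cup1 kk φ.1 ∈ NorS (XX N) := by
      refine ⟨rfl, fun l₁ x l₂ => ?_⟩
      have h1 := hchi'v (l₁ ++ x :: x :: l₂)
      have h2 : cup1 (la p.2) φ.1 (l₁ ++ x :: x :: l₂) = 0 := n2.2 l₁ x l₂
      have h3 : del (cup0 u φ.1) (l₁ ++ x :: x :: l₂) = 0 := (n3 u).2.del l₁ x l₂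
      rw [h2, h3] at h1
      omega
    set chi' : NC (XX N) := ⟨cup1 kk φ.1, hmem⟩ with hchi'
    have hTφ : ∀ i, TN N J i φ = φ := fun i => Subtype.ext (hT i i.2)
    have hTal : ∀ i, TN N J i al = al := by
      intro i
      apply Subtype.ext
      show pb (tt (i : ℕ)) (cup1 (la p.2) φ.1) = cup1 (la p.2) φ.1
      rw [(d4 (tt (i : ℕ)) (if (i : ℕ) = p.1 then 1 else 0) (hlab i i.2) φ.1).2, hT i i.2]
    have hpbcup : ∀ (t : XX N → XX N) (w : XX N → ℤ),
        pb t (cup0 w φ.1) = cup0 (fun x => w (t x)) (pb t φ.1) := by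
      intro t w
      funext l
      cases l with
      | nil => rfl
      | cons x l => rfl
    have hTlam : ∀ i, i ≠ j → TN N J i lam = lam := by
      intro i hi
      apply Subtype.ext
      show pb (tt (i : ℕ)) (cup0 u φ.1) = cup0 u φ.1
      rw [hpbcup, hT i i.2]
      congr 1
      funext x
      simp only [hu]
      rw [hlab i i.2 x, if_neg (fun h => hi (Subtype.ext h)), add_zero]
    have hTlamj : TN N J j lam = lam + φ + (3 : ℤ) • chi := by
      apply Subtype.ext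
      show pb (tt p.1) (cup0 u φ.1) = _
      rw [hpbcup, hT p.1 hpJ]
      funext l
      show cup0 (fun x => u (tt p.1 x)) φ.1 l = cup0 u φ.1 l + φ.1 l + (3 : ℤ) • cup0 v φ.1 l
      cases l with
      | nil =>
        simp only [cup0, smul_zero, add_zero, zero_add]
        exact φ.2.1.symm
      | cons x l =>
        simp only [cup0, smul_eq_mul]
        have h1 : u (tt p.1 x) = u x + 1 + 3 * v x := by
          simp only [hu, hv]
          rw [hlab p.1 hpJ x, if_pos rfl]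
          exact cell_val _
        rw [h1]
        ring
    have hald : al = dN (XX N) lam + (3 : ℤ) • chi' := by
      apply Subtype.ext
      funext l
      show cup1 (la p.2) φ.1 l = del (cup0 u φ.1) l + (3 : ℤ) • cup1 kk φ.1 l
      rw [smul_eq_mul, hchi'v]
      ring
    have h3ε : (3 : ℤ) • ε' = dN (XX N) al := by
      apply Subtype.ext
      funext l
      show (3 : ℤ) • ε'.1 l = del (cup1 (la p.2) φ.1) l
      rw [hε', smul_eq_mul]
      exact u1 l
    exact hCLM _ _ _ _ j _ _ _ _ hRel C hC φ al lam ε' chi chi' hTφ hTal hTlam hTlamj hald h3ε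

end Pool.OPP
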