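import Pool.Agent.H91.OPP.TTB

/-!
# OPP, module ROT: algebra of the rotations and twists
-/

set_option autoImplicit false

namespace Pool.OPP

open scoped Topology Uniformity

theorem rot_eb {n r : ℕ} (h : r < n) : ‖eb n r‖ = 1 := by
  have h1 : eb n r = EuclideanSpace.single (⟨r, h⟩ : Fin n) (1 : ℂ) := by
    ext k
    simp only [eb, PiLp.single_apply, Fin.ext_iff]
  rw [h1, PiLp.norm_single, norm_one]

theorem rot_half {N : ℕ → ℕ} {j r : ℕ} (h : r < N j) (x : XX N) :
    rtt j r (Real.pi / 2) x =
      Function.update x j ⟨eb (N j) r, mem_sphere_zero_iff_norm.2 (rot_eb h)⟩ := by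
  have h1 : Real.cos (Real.pi / 2) • ((x j : EuclideanSpace ℂ (Fin (N j)))) +
      Real.sin (Real.pi / 2) • eb (N j) r = eb (N j) r := by
    rw [Real.cos_pi_div_two, Real.sin_pi_div_two, zero_smul, zero_add, one_smul]
  unfold rtt
  rw [dif_pos (by rw [h1]; exact rot_eb h)]
  congr 1
  exact Subtype.ext h1

/-- `rtt` only changes the coordinate `j` -/
theorem rot_upd {N : ℕ → ℕ} (j r : ℕ) (θ : ℝ) (x : XX N) :
    ∃ v, rtt j r θ x = Function.update x j v := by
  unfold rtt
  split_ifs
  · exact ⟨_, rfl⟩
  · exact ⟨x j, by rw [Function.update_eq_self]⟩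

theorem rot_thm : S_ROT := by
  intro N
  refine ⟨?_, ?_, ?_, ?_, ?_⟩
  · intro i j x
    by_cases h : i = j
    · subst h; rfl
    · unfold tt
      rw [Function.update_of_ne h, Function.update_of_ne (Ne.symm h), Function.update_comm h]
  · intro j x
    unfold tt
    simp only [Function.update_self, Function.update_idem]
    have h1 : rot (rot (rot (x j))) = x j := by
      apply Subtype.ext
      simp only [coe_rot, smul_smul]
      rw [show om * (om * om) = om ^ 3 by ring, om_pow_three, one_smul]
    rw [h1, Function.update_eq_self]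
  · intro j r x
    unfold rtt
    have h1 : Real.cos 0 • ((x j : EuclideanSpace ℂ (Fin (N j)))) + Real.sin 0 • eb (N j) r =
        (x j : EuclideanSpace ℂ (Fin (N j))) := by
      rw [Real.cos_zero, Real.sin_zero, zero_smul, add_zero, one_smul]
    rw [dif_pos (by rw [h1]; exact norm_eq_of_mem_sphere _)]
    have h2 : (⟨Real.cos 0 • ((x j : EuclideanSpace ℂ (Fin (N j)))) + Real.sin 0 • eb (N j) r,
        mem_sphere_zero_iff_norm.2 (by rw [h1]; exact norm_eq_of_mem_sphere _)⟩ : CSph (N j)) =
        x j := Subtype.ext h1
    rw [h2, Function.update_eq_self]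
  · intro j r r' θ x hr
    constructor
    · rw [rot_half hr, rot_half hr]
      obtain ⟨v, hv⟩ := rot_upd j r' θ x
      rw [hv, Function.update_idem]
    · rw [rot_half hr, rot_half hr]
      unfold tt
      rw [Function.update_idem]
  · intro i j r θ x hij
    have h1 : tt i x j = x j := by
      unfold tt
      rw [Function.update_of_ne (Ne.symm hij)]
    unfold rtt
    simp only [h1]
    split_ifs with h
    · unfold tt
      rw [Function.update_of_ne hij, Function.update_comm hij]
    · rfl

end Pool.OPP
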