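import Pool.Agent.H91.OPP.TTB

/-!
# OPP, module UNI: uniformity of the product of spheres
-/

set_option autoImplicit false

namespace Pool.OPP

open scoped Topology Uniformity

theorem uni : S_UNI := by
  intro N
  constructor
  · intro V hV
    rw [Pi.uniformity, Filter.mem_iInf] at hV
    obtain ⟨I, hI, W, hW, rfl⟩ := hV
    have h1 : ∀ i : I, ∃ ε : ℝ, 0 < ε ∧ ∀ x y : XX N, dist (x i) (y i) ≤ ε → (x, y) ∈ W i := by
      intro i
      obtain ⟨U, hU, hUW⟩ := Filter.mem_comap.mp (hW i)
      obtain ⟨ε, hε, hεU⟩ := Metric.mem_uniformity_dist.mp hU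
      refine ⟨ε / 2, by positivity, fun x y hxy => hUW ?_⟩
      exact hεU (lt_of_le_of_lt hxy (by linarith))
    choose e he he' using h1
    have : Finite I := hI.to_subtype
    have : Fintype I := Fintype.ofFinite I
    have key : ∃ ε : ℝ, 0 < ε ∧ ∀ i, ε ≤ e i := by
      let F : Option I → ℝ := fun o => o.elim 1 e
      refine ⟨Finset.univ.inf' (Finset.univ_nonempty (α := Option I)) F, ?_, fun i => ?_⟩
      · rw [Finset.lt_inf'_iff]
        rintro (_ | i) _
        · exact one_pos
        · exact he i
      · exact Finset.inf'_le F (Finset.mem_univ (some i))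
    obtain ⟨ε, hε, hεe⟩ := key
    refine ⟨ε, hε, fun x y hxy => ?_⟩
    rw [Set.mem_iInter]
    intro i
    exact he' i x y ((hxy i).trans (hεe i))
  · intro g hg δ hδ
    have h1 : UniformContinuous g := CompactSpace.uniformContinuous_of_continuous hg
    refine ⟨_, h1 (Metric.dist_mem_uniformity hδ), fun x y hxy => ?_⟩
    have h3 : dist (g x) (g y) < δ := hxy
    rw [dist_eq_norm] at h3
    exact h3.le

end Pool.OPP
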